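import Pool.Agent.H351R3.QI.Examples

/-!
Finite alternative rings and finite Jordan rings without a finite basis of quasi-identities.
-/

set_option autoImplicit false

namespace Pool.Agent.Results.MP_db5ef1_al.NoFiniteQuasiBasis

open Pool.Agent.H351R3.QI

/-- (1) A finite ring (not necessarily associative) with a subring `S` of prime exponent in which
all products of three elements vanish but not all products of two elements, has no finite basis
of quasi-identities. (2) This applies to the split octonions over `F_p` (a finite alternative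
ring, not associative) and (3) to the ring of `3 × 3` matrices over `F_p`, `p` odd, with the
product `x y + y x` (a finite Jordan ring, not associative). -/
theorem result :
    (∀ (A : Type) [NonUnitalNonAssocRing A] [Finite A] (S : NonUnitalSubring A) (p : ℕ),
      p.Prime → (∀ x ∈ S, p • x = 0) →
      (∀ x ∈ S, ∀ y ∈ S, ∀ z ∈ S, x * y * z = 0 ∧ x * (y * z) = 0) →
      (∃ x ∈ S, ∃ y ∈ S, x * y ≠ 0) →
        ¬ HasFiniteBasis A ∧ ¬ HasFiniteBasisAmongRings A) ∧
    (∀ (p : ℕ) [Fact p.Prime],
      Finite (Zorn (ZMod p)) ∧ IsAlternative (Zorn (ZMod p)) ∧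
        (∃ x y z : Zorn (ZMod p), (x * y) * z ≠ x * (y * z)) ∧
        ¬ HasFiniteBasis (Zorn (ZMod p)) ∧ ¬ HasFiniteBasisAmongRings (Zorn (ZMod p))) ∧
    (∀ (p : ℕ) [Fact p.Prime], p ≠ 2 →
      Finite (Plus (Matrix (Fin 3) (Fin 3) (ZMod p))) ∧
        IsJordanRing (Plus (Matrix (Fin 3) (Fin 3) (ZMod p))) ∧
        (∃ x y z : Plus (Matrix (Fin 3) (Fin 3) (ZMod p)), (x * y) * z ≠ x * (y * z)) ∧
        ¬ HasFiniteBasis (Plus (Matrix (Fin 3) (Fin 3) (ZMod p))) ∧
        ¬ HasFiniteBasisAmongRings (Plus (Matrix (Fin 3) (Fin 3) (ZMod p)))) := by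
  refine ⟨?_, ?_, ?_⟩
  · intro A _ _ S p hp h1 h2 h3
    have h := criterion A S p hp h1 h2 h3
    exact ⟨fun h' => h h'.amongRings, h⟩
  · intro p _
    have h := Zorn.not_finiteBasis p
    exact ⟨inferInstance, Zorn.isAlternative, Zorn.not_assoc p, fun h' => h h'.amongRings, h⟩
  · intro p _ hp2
    have h := Plus.not_finiteBasis p
    exact ⟨inferInstance, Plus.isJordanRing, Plus.not_assoc p hp2, fun h' => h h'.amongRings, h⟩

end Pool.Agent.Results.MP_db5ef1_al.NoFiniteQuasiBasis
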